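import Mathlib

/-!
The inequality `tree ≥ ⌈ecc_avg + λ_max / 3⌉` fails by an arbitrarily large amount.
-/

namespace Pool.Agent.Results.MP_e3442a_co.UnboundedGap

open SimpleGraph

/-- The largest number of vertices of an induced tree. -/
noncomputable def treeNum {V : Type} (G : SimpleGraph V) : ℕ :=
  sSup {n | ∃ S : Finset V, (G.induce (S : Set V)).IsTree ∧ S.card = n}

/-- The eccentricity of a vertex. -/
noncomputable def ecc {V : Type} [Fintype V] (G : SimpleGraph V) (v : V) : ℕ :=
  Finset.univ.sup fun u => G.dist v u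

/-- The average eccentricity. -/
noncomputable def eccAvg {V : Type} [Fintype V] (G : SimpleGraph V) : ℚ :=
  (∑ v, (ecc G v : ℚ)) / Fintype.card V

/-- The largest independence number of the subgraph induced by a neighbourhood. -/
noncomputable def lamMax {V : Type} [Fintype V] (G : SimpleGraph V) : ℕ :=
  Finset.univ.sup fun v => (G.induce (G.neighborSet v)).indepNum

/-! ### Acyclic graphs -/

theorem no_triangle {α : Type} {H : SimpleGraph α} (h : H.IsAcyclic) {a b c : α}
    (h1 : H.Adj a b) (h2 : H.Adj b c) (h3 : H.Adj c a) : False := by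
  have n1 := h1.ne
  have n2 := h2.ne
  have n3 := h3.ne
  refine h (Walk.cons h1 (Walk.cons h2 (Walk.cons h3 Walk.nil))) ?_
  rw [Walk.cons_isCycle_iff]
  constructor
  · rw [Walk.isPath_def]
    simp [n1.symm, n2, n3]
  · simp [n1, n2, n1.symm, n3.symm]

theorem no_square {α : Type} {H : SimpleGraph α} (h : H.IsAcyclic) {a b c d : α}
    (h1 : H.Adj a b) (h2 : H.Adj b c) (h3 : H.Adj c d) (h4 : H.Adj d a) (hac : a ≠ c)
    (hbd : b ≠ d) : False := by
  have n1 := h1.ne
  have n2 := h2.ne
  have n3 := h3.ne
  have n4 := h4.ne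
  refine h (Walk.cons h1 (Walk.cons h2 (Walk.cons h3 (Walk.cons h4 Walk.nil)))) ?_
  rw [Walk.cons_isCycle_iff]
  constructor
  · rw [Walk.isPath_def]
    simp [n1.symm, n2, n3, hac.symm, hbd, n4]
  · simp [n1, n2, n1.symm, n4.symm, hac, hbd]

/-- A set closed under adjacency inside a connected induced subgraph contains it. -/
theorem closed_subset {V : Type} {G : SimpleGraph V} {S : Set V} (h : (G.induce S).Connected)
    (T : Set V) (hT : ∀ a ∈ S, a ∈ T → ∀ b ∈ S, G.Adj a b → b ∈ T) {a : V} (haS : a ∈ S)
    (haT : a ∈ T) : S ⊆ T := by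
  intro b hb
  obtain ⟨p⟩ := h.preconnected ⟨a, haS⟩ ⟨b, hb⟩
  have key : ∀ (x y : S) (q : (G.induce S).Walk x y), (x : V) ∈ T → (y : V) ∈ T := by
    intro x y q
    induction q with
    | nil => exact id
    | cons hadj q ih =>
      intro hx
      exact ih (hT _ (Subtype.property _) hx _ (Subtype.property _) hadj)
  exact key _ _ p haT

section

variable (m M : ℕ)

/-- One side: a clique, a path and an independent set. -/
abbrev Side := Fin m ⊕ (Fin M ⊕ Fin (M + 2))

/-- The layer of a vertex of a side. -/
def lay : Side m M → ℕ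
  | Sum.inl _ => 0
  | Sum.inr (Sum.inl j) => j + 1
  | Sum.inr (Sum.inr _) => M + 1

/-- The vertex set: two sides and a centre. -/
abbrev Vtx := Option (Bool × Side m M)

/-- The adjacency relation. -/
def adj : Vtx m M → Vtx m M → Prop
  | none, none => False
  | none, some (_, y) => lay m M y = M + 1
  | some (_, x), none => lay m M x = M + 1
  | some (s, x), some (t, y) => s = t ∧
      (lay m M x = lay m M y + 1 ∨ lay m M y = lay m M x + 1 ∨
        (lay m M x = 0 ∧ lay m M y = 0 ∧ x ≠ y))

/-- The graph. -/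
def Gr : SimpleGraph (Vtx m M) where
  Adj := adj m M
  symm := ⟨by
    rintro (_ | ⟨s, x⟩) (_ | ⟨t, y⟩) h
    · exact h
    · exact h
    · exact h
    · obtain ⟨h1, h2 | h2 | ⟨h2, h3, h4⟩⟩ := h
      · exact ⟨h1.symm, Or.inr (Or.inl h2)⟩
      · exact ⟨h1.symm, Or.inl h2⟩
      · exact ⟨h1.symm, Or.inr (Or.inr ⟨h3, h2, h4.symm⟩)⟩⟩
  loopless := ⟨by
    rintro (_ | ⟨s, x⟩) h
    · exact h
    · obtain ⟨-, h2 | h2 | ⟨-, -, h4⟩⟩ := h
      · omega
      · omega
      · exact h4 rfl⟩

variable {m M}

theorem adj_some_some {s t : Bool} {x y : Side m M} :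
    (Gr m M).Adj (some (s, x)) (some (t, y)) ↔ s = t ∧
      (lay m M x = lay m M y + 1 ∨ lay m M y = lay m M x + 1 ∨
        (lay m M x = 0 ∧ lay m M y = 0 ∧ x ≠ y)) := Iff.rfl

theorem adj_none_some {s : Bool} {x : Side m M} :
    (Gr m M).Adj none (some (s, x)) ↔ lay m M x = M + 1 := Iff.rfl

theorem adj_some_none {s : Bool} {x : Side m M} :
    (Gr m M).Adj (some (s, x)) none ↔ lay m M x = M + 1 := Iff.rfl

theorem lay_le (x : Side m M) : lay m M x ≤ M + 1 := by
  rcases x with i | j | k
  · exact Nat.zero_le _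
  · show (j : ℕ) + 1 ≤ M + 1
    omega
  · exact le_refl _

theorem lay_inj {x y : Side m M} (h : lay m M x = lay m M y) (h1 : 1 ≤ lay m M x)
    (h2 : lay m M x ≤ M) : x = y := by
  rcases x with i | j | k <;> rcases y with i' | j' | k' <;> simp only [lay] at h h1 h2 <;>
    try omega
  have : j = j' := Fin.ext (by omega)
  rw [this]

/-- The global height. -/
def ht : Vtx m M → ℕ
  | none => M + 2
  | some (false, x) => lay m M x
  | some (true, x) => 2 * (M + 2) - lay m M x

theorem ht_adj {u v : Vtx m M} (h : (Gr m M).Adj u v) : ht v ≤ ht u + 1 := by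
  rcases u with _ | ⟨s, x⟩ <;> rcases v with _ | ⟨t, y⟩
  · exact absurd h (fun h => h)
  · rw [adj_none_some] at h
    cases t <;> simp only [ht] <;> omega
  · rw [adj_some_none] at h
    cases s <;> simp only [ht] <;> omega
  · rw [adj_some_some] at h
    have h1 := lay_le x
    have h2 := lay_le y
    obtain ⟨rfl, h | h | h⟩ := h <;> cases s <;> simp only [ht] <;> omega

theorem ht_walk {u v : Vtx m M} (p : (Gr m M).Walk u v) : ht v ≤ ht u + p.length := by
  induction p with
  | nil => simp
  | cons h p ih =>
    have := ht_adj h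
    rw [Walk.length_cons]; omega

theorem connected : (Gr m M).Connected := by
  have key : ∀ (n : ℕ) (s : Bool) (x : Side m M), lay m M x + n = M + 1 →
      (Gr m M).Reachable (some (s, x)) none := by
    intro n
    induction n with
    | zero =>
      intro s x h
      exact Adj.reachable (adj_some_none.2 (by omega))
    | succ n ih =>
      intro s x h
      -- the next layer is nonempty
      obtain ⟨y, hy⟩ : ∃ y : Side m M, lay m M y = lay m M x + 1 := by
        by_cases hM : lay m M x < M
        · exact ⟨Sum.inr (Sum.inl ⟨lay m M x, hM⟩), rfl⟩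
        · refine ⟨Sum.inr (Sum.inr ⟨0, by omega⟩), ?_⟩
          show M + 1 = lay m M x + 1
          omega
      have h1 : (Gr m M).Adj (some (s, x)) (some (s, y)) := adj_some_some.2 ⟨rfl, by omega⟩
      exact h1.reachable.trans (ih s y (by omega))
  have all : ∀ u, (Gr m M).Reachable u none := by
    rintro (_ | ⟨s, x⟩)
    · exact Reachable.refl _
    · exact key (M + 1 - lay m M x) s x (by have := lay_le x; omega)
  rw [connected_iff]
  exact ⟨fun u v => (all u).trans (all v).symm, ⟨none⟩⟩

theorem le_dist (u v : Vtx m M) : ht v ≤ ht u + (Gr m M).dist u v := by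
  obtain ⟨p, hp⟩ := connected.exists_walk_length_eq_dist u v
  rw [← hp]; exact ht_walk p

theorem le_ecc (hm : 0 < m) (u : Vtx m M) : M + 2 ≤ ecc (Gr m M) u := by
  have h1 : (Gr m M).dist u (some (false, Sum.inl ⟨0, hm⟩)) ≤ ecc (Gr m M) u :=
    Finset.le_sup (f := fun v => (Gr m M).dist u v) (Finset.mem_univ _)
  have h2 : (Gr m M).dist u (some (true, Sum.inl ⟨0, hm⟩)) ≤ ecc (Gr m M) u :=
    Finset.le_sup (f := fun v => (Gr m M).dist u v) (Finset.mem_univ _)
  have h3 := le_dist (some (false, Sum.inl ⟨0, hm⟩)) u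
  have h4 := le_dist u (some (true, Sum.inl ⟨0, hm⟩))
  rw [dist_comm] at h3
  simp only [ht, lay] at h3 h4
  omega

theorem le_ecc_clique (hm : 0 < m) (s : Bool) (i : Fin m) :
    2 * (M + 2) ≤ ecc (Gr m M) (some (s, Sum.inl i)) := by
  have h1 : (Gr m M).dist (some (s, Sum.inl i)) (some (!s, Sum.inl ⟨0, hm⟩)) ≤
      ecc (Gr m M) (some (s, Sum.inl i)) :=
    Finset.le_sup (f := fun v => (Gr m M).dist _ v) (Finset.mem_univ _)
  have h3 := le_dist (some (false, Sum.inl ⟨0, hm⟩)) (some (true, (Sum.inl i : Side m M)))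
  have h4 := le_dist (some (false, Sum.inl i)) (some (true, (Sum.inl ⟨0, hm⟩ : Side m M)))
  cases s
  · simp only [ht, lay, Bool.not_false] at h1 h4
    omega
  · rw [dist_comm] at h3
    simp only [ht, lay, Bool.not_true] at h1 h3
    omega

theorem sum_ecc (hm : 0 < m) :
    4 * m * (M + 2) + (4 * M + 5) * (M + 2) ≤ ∑ v : Vtx m M, ecc (Gr m M) v := by
  have e : ∀ s : Bool, ∑ x : Side m M, ecc (Gr m M) (some (s, x)) =
      ∑ i : Fin m, ecc (Gr m M) (some (s, Sum.inl i)) +
      ∑ i : Fin M ⊕ Fin (M + 2), ecc (Gr m M) (some (s, Sum.inr i)) :=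
    fun s => Fintype.sum_sum_type _
  rw [Fintype.sum_option, Fintype.sum_prod_type, Fintype.sum_bool, e, e]
  have h0 := le_ecc (M := M) hm none
  have h1 : ∀ s : Bool, m * (2 * (M + 2)) ≤
      ∑ i : Fin m, ecc (Gr m M) (some (s, Sum.inl i)) := by
    intro s
    calc m * (2 * (M + 2)) = ∑ _i : Fin m, 2 * (M + 2) := by simp
      _ ≤ _ := Finset.sum_le_sum fun i _ => le_ecc_clique hm s i
  have h2 : ∀ s : Bool, (M + (M + 2)) * (M + 2) ≤
      ∑ i : Fin M ⊕ Fin (M + 2), ecc (Gr m M) (some (s, Sum.inr i)) := by
    intro s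
    calc (M + (M + 2)) * (M + 2) = ∑ _i : Fin M ⊕ Fin (M + 2), (M + 2) := by simp
      _ ≤ _ := Finset.sum_le_sum fun i _ => le_ecc hm _
  have h3 := h1 true
  have h4 := h1 false
  have h5 := h2 true
  have h6 := h2 false
  nlinarith

theorem card_vtx : Fintype.card (Vtx m M) = 2 * m + 4 * M + 5 := by
  simp [Vtx, Side, Fintype.card_option]
  ring

theorem lam_ge : 2 * (M + 2) ≤ lamMax (Gr m M) := by
  have h1 : ((Gr m M).induce ((Gr m M).neighborSet none)).indepNum ≤ lamMax (Gr m M) :=
    Finset.le_sup (f := fun v => ((Gr m M).induce ((Gr m M).neighborSet v)).indepNum)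
      (Finset.mem_univ none)
  refine le_trans ?_ h1
  classical
  -- the neighbourhood of the centre is independent
  let e : Bool × Fin (M + 2) → (Gr m M).neighborSet none :=
    fun p => ⟨some (p.1, Sum.inr (Sum.inr p.2)), by
      rw [mem_neighborSet, adj_none_some]; rfl⟩
  have he : Function.Injective e := by
    rintro ⟨s, i⟩ ⟨t, j⟩ h
    have := congrArg Subtype.val h
    simp only [e, Option.some.injEq, Prod.mk.injEq, Sum.inr.injEq] at this
    exact Prod.ext this.1 this.2
  have hind : ((Gr m M).induce ((Gr m M).neighborSet none)).IsIndepSet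
      ((Finset.univ.image e : Finset _) : Set _) := by
    rintro ⟨u, hu⟩ - ⟨v, hv⟩ - - hadj
    have hadj' : (Gr m M).Adj u v := hadj
    have hu' : (Gr m M).Adj none u := (mem_neighborSet ..).1 hu
    have hv' : (Gr m M).Adj none v := (mem_neighborSet ..).1 hv
    rcases u with _ | ⟨s, x⟩
    · exact (Gr m M).loopless.irrefl _ hu'
    rcases v with _ | ⟨t, y⟩
    · exact (Gr m M).loopless.irrefl _ hv'
    rw [adj_none_some] at hu' hv'
    rw [adj_some_some] at hadj'
    omega
  have h2 := hind.card_le_indepNum
  rw [Finset.card_image_of_injective _ he, Finset.card_univ, Fintype.card_prod,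
    Fintype.card_bool, Fintype.card_fin] at h2
  exact h2

theorem tree_le {S : Finset (Vtx m M)} (hM : 0 < M)
    (hS : ((Gr m M).induce (S : Set (Vtx m M))).IsTree) : S.card ≤ 2 * M + 5 := by
  classical
  have tri : ∀ a ∈ S, ∀ b ∈ S, ∀ c ∈ S, (Gr m M).Adj a b → (Gr m M).Adj b c →
      (Gr m M).Adj c a → False := by
    intro a ha b hb c hc h1 h2 h3
    exact no_triangle hS.isAcyclic (a := ⟨a, ha⟩) (b := ⟨b, hb⟩) (c := ⟨c, hc⟩) h1 h2 h3
  have sq : ∀ a ∈ S, ∀ b ∈ S, ∀ c ∈ S, ∀ d ∈ S, (Gr m M).Adj a b → (Gr m M).Adj b c →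
      (Gr m M).Adj c d → (Gr m M).Adj d a → a ≠ c → b ≠ d → False := by
    intro a ha b hb c hc d hd h1 h2 h3 h4 h5 h6
    exact no_square hS.isAcyclic (a := ⟨a, ha⟩) (b := ⟨b, hb⟩) (c := ⟨c, hc⟩) (d := ⟨d, hd⟩)
      h1 h2 h3 h4 (fun h => h5 (congrArg Subtype.val h)) (fun h => h6 (congrArg Subtype.val h))
  -- the parts on each side
  let P : Bool → Finset (Side m M) := fun s => Finset.univ.filter fun x => some (s, x) ∈ S
  have hP : ∀ s x, x ∈ P s ↔ some (s, x) ∈ S := by
    intro s x
    simp [P]
  have low : ∀ s, ((P s).filter fun x => lay m M x ≤ 1).card ≤ 2 := by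
    intro s
    by_contra hc
    push Not at hc
    obtain ⟨a, b, c, ha, hb, hc, hab, hac, hbc⟩ := Finset.two_lt_card_iff.1 hc
    simp only [Finset.mem_filter, hP] at ha hb hc
    have adjm : ∀ x y : Side m M, lay m M x ≤ 1 → lay m M y ≤ 1 → x ≠ y →
        (Gr m M).Adj (some (s, x)) (some (s, y)) := by
      intro x y hx hy hxy
      rw [adj_some_some]
      refine ⟨rfl, ?_⟩
      by_cases h1 : lay m M x = 0 <;> by_cases h2 : lay m M y = 0
      · exact Or.inr (Or.inr ⟨h1, h2, hxy⟩)
      · omega
      · omega
      · exact absurd (lay_inj (by omega) (by omega) (by omega)) hxy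
    exact tri _ ha.1 _ hb.1 _ hc.1 (adjm _ _ ha.2 hb.2 hab) (adjm _ _ hb.2 hc.2 hbc)
      (adjm _ _ hc.2 ha.2 hac.symm)
  have mid : ∀ s, ((P s).filter fun x => 2 ≤ lay m M x ∧ lay m M x ≤ M).card ≤ M - 1 := by
    intro s
    have h1 : ((P s).filter fun x => 2 ≤ lay m M x ∧ lay m M x ≤ M).card ≤
        (Finset.Icc 2 M).card := by
      refine Finset.card_le_card_of_injOn (lay m M) ?_ ?_
      · intro x hx
        have := (Finset.mem_filter.1 hx).2
        exact Finset.mem_coe.2 (Finset.mem_Icc.2 this)
      · intro x hx y _ hxy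
        have := (Finset.mem_filter.1 hx).2
        exact lay_inj hxy (by omega) (by omega)
    rw [Nat.card_Icc] at h1
    omega
  have top : ∀ s, ((P s).filter fun x => lay m M x = M + 1).card ≤ M + 2 := by
    intro s
    have h1 : ((P s).filter fun x => lay m M x = M + 1) ⊆
        (Finset.univ : Finset (Fin (M + 2))).image fun j => Sum.inr (Sum.inr j) := by
      intro x hx
      have hx2 := (Finset.mem_filter.1 hx).2
      rcases x with i | j | k
      · simp only [lay] at hx2; omega
      · simp only [lay] at hx2; omega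
      · exact Finset.mem_image.2 ⟨k, Finset.mem_univ _, rfl⟩
    refine (Finset.card_le_card h1).trans (Finset.card_image_le.trans ?_)
    simp
  have split : ∀ s, (P s).card ≤ ((P s).filter fun x => lay m M x ≤ 1).card +
      ((P s).filter fun x => 2 ≤ lay m M x ∧ lay m M x ≤ M).card +
      ((P s).filter fun x => lay m M x = M + 1).card := by
    intro s
    have h1 : P s ⊆ ((P s).filter fun x => lay m M x ≤ 1) ∪
        ((P s).filter fun x => 2 ≤ lay m M x ∧ lay m M x ≤ M) ∪
        ((P s).filter fun x => lay m M x = M + 1) := by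
      intro x hx
      have := lay_le x
      simp only [Finset.mem_union, Finset.mem_filter, hx, true_and]
      omega
    refine (Finset.card_le_card h1).trans ?_
    refine (Finset.card_union_le _ _).trans ?_
    exact Nat.add_le_add_right (Finset.card_union_le _ _) _
  -- the cardinality of `S`
  have card_S : S.card ≤ (S.filter fun u => u = none).card + (P false).card + (P true).card := by
    have h1 : S ⊆ (S.filter fun u => u = none) ∪ (P false).image (fun x => some (false, x)) ∪
        (P true).image (fun x => some (true, x)) := by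
      rintro (_ | ⟨s, x⟩) hu
      · simp [hu]
      · cases s
        · simp only [Finset.mem_union, Finset.mem_image]
          exact Or.inl (Or.inr ⟨x, (hP _ _).2 hu, rfl⟩)
        · simp only [Finset.mem_union, Finset.mem_image]
          exact Or.inr ⟨x, (hP _ _).2 hu, rfl⟩
    refine (Finset.card_le_card h1).trans ?_
    refine (Finset.card_union_le _ _).trans ?_
    refine Nat.add_le_add ((Finset.card_union_le _ _).trans
      (Nat.add_le_add_left Finset.card_image_le _)) Finset.card_image_le
  by_cases hn : (none : Vtx m M) ∈ S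
  · -- the centre belongs to the tree
    have side : ∀ s, (P s).card ≤ M + 2 := by
      intro s
      by_cases hw : ∃ x : Side m M, lay m M x = M ∧ some (s, x) ∈ S
      · obtain ⟨w, hw1, hw2⟩ := hw
        have one : ((P s).filter fun x => lay m M x = M + 1).card ≤ 1 := by
          rw [Finset.card_le_one]
          intro a ha b hb
          simp only [Finset.mem_filter, hP] at ha hb
          by_contra hab
          refine sq none hn (some (s, a)) ha.1 (some (s, w)) hw2 (some (s, b)) hb.1
            (adj_none_some.2 ha.2) (adj_some_some.2 ⟨rfl, by omega⟩)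
            (adj_some_some.2 ⟨rfl, by omega⟩) (adj_some_none.2 hb.2) (by simp) ?_
          intro h
          simp only [Option.some.injEq, Prod.mk.injEq, true_and] at h
          exact hab h
        have h1 := split s
        have h2 := low s
        have h3 := mid s
        omega
      · push Not at hw
        -- nothing below the top layer
        have hnone : ∀ x ∈ P s, lay m M x = M + 1 := by
          intro x hx
          by_contra hne
          have hle := lay_le x
          have hsub := closed_subset hS.connected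
            {u | ∃ y : Side m M, u = some (s, y) ∧ lay m M y ≤ M} (by
              rintro a haS ⟨y, rfl, hy⟩ b hbS hab
              have hyM : lay m M y ≠ M := fun h => hw y h haS
              rcases b with _ | ⟨t, z⟩
              · rw [adj_some_none] at hab; omega
              · rw [adj_some_some] at hab
                obtain ⟨rfl, hab⟩ := hab
                exact ⟨z, rfl, by omega⟩) (a := some (s, x)) ((hP _ _).1 hx)
            ⟨x, rfl, by omega⟩
          obtain ⟨y, hy, -⟩ := hsub hn
          exact absurd hy (by simp)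
        have : P s = (P s).filter fun x => lay m M x = M + 1 := by
          rw [Finset.filter_true_of_mem hnone]
        rw [this]
        exact top s
    have h1 := side true
    have h2 := side false
    have h3 : (S.filter fun u => u = none).card ≤ 1 := by
      rw [Finset.card_le_one]
      intro a ha b hb
      rw [(Finset.mem_filter.1 ha).2, (Finset.mem_filter.1 hb).2]
    omega
  · have h3 : (S.filter fun u => u = none).card = 0 := by
      rw [Finset.card_eq_zero, Finset.filter_eq_empty_iff]
      rintro u hu rfl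
      exact hn hu
    -- one side is empty
    have h4 : ∀ s, (P s).card = 0 ∨ (P (!s)).card = 0 := by
      intro s
      by_contra hc
      push Not at hc
      obtain ⟨x, hx⟩ := Finset.card_ne_zero.1 hc.1
      obtain ⟨y, hy⟩ := Finset.card_ne_zero.1 hc.2
      have hsub := closed_subset hS.connected {u | ∃ y : Side m M, u = some (s, y)} (by
        rintro a haS ⟨y, rfl⟩ b hbS hab
        rcases b with _ | ⟨t, z⟩
        · exact absurd hbS hn
        · rw [adj_some_some] at hab
          obtain ⟨rfl, hab⟩ := hab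
          exact ⟨z, rfl⟩) (a := some (s, x)) ((hP _ _).1 hx) ⟨x, rfl⟩
      obtain ⟨z, hz⟩ := hsub ((hP _ _).1 hy)
      simp only [Option.some.injEq, Prod.mk.injEq] at hz
      cases s <;> simp at hz
    have h5 : ∀ s, (P s).card ≤ 2 * M + 3 := by
      intro s
      have h1 := split s
      have h2 := low s
      have h3 := mid s
      have h4 := top s
      omega
    have h6 := h4 false
    rw [Bool.not_false] at h6
    have h7 := h5 true
    have h8 := h5 false
    omega

theorem treeNum_le (hM : 0 < M) : treeNum (Gr m M) ≤ 2 * M + 5 := by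
  refine csSup_le' ?_
  rintro n ⟨S, hS, rfl⟩
  exact tree_le hM hS

end

/-- The conjectured inequality fails by an arbitrarily large amount. -/
theorem result : ∀ N : ℕ, ∃ (V : Type) (_ : Fintype V) (G : SimpleGraph V), G.Connected ∧
    (treeNum G : ℤ) + N < ⌈eccAvg G + (lamMax G : ℚ) / 3⌉ := by
  intro N
  let M := 2 * N + 2
  let m := (M + 1) * (4 * M + 5)
  have hm : 0 < m := by positivity
  refine ⟨Vtx m M, inferInstance, Gr m M, connected, ?_⟩
  rw [Int.lt_ceil]
  have h1 : (treeNum (Gr m M) : ℚ) ≤ 2 * M + 5 := by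
    exact_mod_cast treeNum_le (m := m) (M := M) (by omega)
  have h2 : (2 * (M + 2) : ℚ) ≤ lamMax (Gr m M) := by
    exact_mod_cast lam_ge (m := m) (M := M)
  have h3 : (2 * M + 3 : ℚ) ≤ eccAvg (Gr m M) := by
    rw [eccAvg, card_vtx, le_div_iff₀ (by positivity)]
    have := sum_ecc (M := M) hm
    have h4 : ((4 * m * (M + 2) + (4 * M + 5) * (M + 2) : ℕ) : ℚ) ≤
        ∑ v : Vtx m M, (ecc (Gr m M) v : ℚ) := by
      exact_mod_cast this
    refine le_trans ?_ h4
    have hmq : (m : ℚ) = (M + 1) * (4 * M + 5) := by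
      simp only [m]; push_cast; ring
    push_cast
    rw [hmq]
    have hM0 : (0 : ℚ) ≤ M := Nat.cast_nonneg _
    nlinarith
  have hMq : (M : ℚ) = 2 * N + 2 := by
    simp only [M]; push_cast; ring
  have hN : (0 : ℚ) ≤ N := Nat.cast_nonneg _
  push_cast
  rw [hMq] at h1 h2 h3
  linarith

end Pool.Agent.Results.MP_e3442a_co.UnboundedGap
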